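import Pool.Agent.H82.LS.Df

/-!
# [H34 RC DF] THEOREM A with a residue class for every interval: definitions

`GoodC`: every prime `N + y` of the window `N + [0, h]` lies in one of the intervals `N + [al d * h, be d * h]` and is
`r d` modulo `Q` there, and the weights of the intervals with exactly one prime have a sum `> 1`.
-/

set_option autoImplicit false

namespace Pool.Agent.H34.RC

open Finset Filter Pool.Agent.H82.LS

open Classical in
/-- good windows of length `h`, the primes of the interval `d` are in the class `r d` modulo `Q` -/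
def GoodC {m : ℕ} (Q : ℕ) (r : Fin m → ℕ) (al be w : Fin m → ℝ) (h : ℝ) (N : ℕ) : Prop :=
  (∀ y : ℕ, (y : ℝ) ≤ h → (N + y).Prime →
    ∃ d, al d * h ≤ (y : ℝ) ∧ (y : ℝ) ≤ be d * h ∧ N + y ≡ r d [MOD Q]) ∧
  1 < ∑ d, if OneIn (al d) (be d) h N then w d else 0

open Classical in
/-- THEOREM A with classes: many good windows; `lam0` depends only on the weights and on `Q` -/
def ThmC : Prop := ∀ (m : ℕ) (w : Fin m → ℝ), (∀ d, 0 ≤ w d) → 100 ≤ ∑ d, w d →
  ∀ Q : ℕ, 0 < Q →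
  ∃ lam0 : ℝ, 0 < lam0 ∧ lam0 ≤ 1 ∧ ∀ r : Fin m → ℕ, (∀ d, Nat.Coprime (r d) Q) →
    ∀ al be : Fin m → ℝ, (∀ d, 0 < al d ∧ al d < be d ∧ be d < 1) →
    (∀ d d', d ≠ d' → be d < al d' ∨ be d' < al d) → ∀ lam : ℝ, 0 < lam → lam ≤ lam0 →
      ∃ δ T : ℝ, 0 < δ ∧ 1 ≤ T ∧ ∀ᶠ x : ℝ in atTop,
        δ * x ≤ (((range (⌊T * x⌋₊ + 1)).filter
          (fun N : ℕ => GoodC Q r al be w (lam * Real.log x) N)).card : ℝ)

end Pool.Agent.H34.RC
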