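import Pool.Agent.H34.RC.Mq
import Pool.Agent.H34.RC.Df

/-!
# [H34 RC FIN] THEOREM A with a residue class for every interval (from H34/RR/Fin)
-/

set_option autoImplicit false

namespace Pool.Agent.H34.RC

open Finset Filter Pool.Agent.H82.LS Pool.Agent.H92.MM Pool.Agent.H96.WP Pool.Agent.H34.RR

private lemma primorial_dvd (Q w : ℕ) : primorial w ∣ WR Q (primorial w) := by
  unfold primorial
  apply Finset.prod_primes_dvd
  · intro p hp
    exact (mem_filter.1 hp).2.prime
  · intro p hp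
    exact wr_dvd (primorial_pos w).ne' (mem_filter.1 hp).2 (dvd_prod_of_mem (fun p : ℕ => p) hp)

/-- classes prime to the larger modulus -/
private lemma exists_cl (Q D r : ℕ) (hr : Nat.Coprime r Q) :
    ∃ r' : ℕ, r' ≡ r [MOD Q] ∧ Nat.Coprime r' (WR Q D) := by
  have hcop := pdprod_cop Q D
  have h1 := (Nat.chineseRemainder hcop r 1).2
  refine ⟨(Nat.chineseRemainder hcop r 1 : ℕ), h1.1, ?_⟩
  refine Nat.Coprime.mul_right ?_ ?_
  · have h2 : Nat.gcd r Q = 1 := hr
    have h3 := Nat.ModEq.gcd_eq h1.1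
    rw [h2] at h3
    exact h3
  · show Nat.gcd _ _ = 1
    rw [Nat.ModEq.gcd_eq h1.2]
    exact Nat.gcd_one_left _

/-- from the positions to a good window -/
private lemma good_of_gd {m s1 Q R : ℕ} {ρ r : Fin m → ℕ} (hQR : Q ∣ R) {w al be : Fin m → ℝ}
    (hw : ∀ d, 0 ≤ w d) (σ : Equiv.Perm (Fin m)) (hρ : ∀ d, ρ d ≡ r (σ d) [MOD Q]) (hint : ∀ d, 0 < al d ∧ al d < be d ∧ be d < 1)
    (hdisj : ∀ d d', d ≠ d' → be d < al d' ∨ be d' < al d) {h : ℝ} (hh : 0 < h) {N : ℕ}
    (hN : GdC m s1 R ρ (fun d => w (σ d)) (fun d => al (σ d)) (fun d => be (σ d)) h N) :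
    GoodC Q r al be w h N := by
  classical
  obtain ⟨hRN, u, hu, hwc, hpr⟩ := hN
  obtain ⟨-, -, hρu, hblk⟩ := mem_BXC.1 hu
  have hval : ∀ i : Fin (m * s1), finProdFinEquiv ((finProdFinEquiv.symm i).1, (finProdFinEquiv.symm i).2) = i :=
    fun i => Equiv.apply_symm_apply _ _
  refine ⟨?_, ?_⟩
  · intro y hy hp
    obtain ⟨i, hi⟩ := hpr y hy hp
    have h0 := hblk (finProdFinEquiv.symm i).1 (finProdFinEquiv.symm i).2
    rw [hval i, hi] at h0
    refine ⟨σ (finProdFinEquiv.symm i).1, h0.1, h0.2, ?_⟩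
    have h1 : y ≡ ρ (finProdFinEquiv.symm i).1 [MOD Q] := by
      rw [← hi]
      exact (hρu i).of_dvd hQR
    have h2 : N ≡ 0 [MOD Q] := (Nat.modEq_zero_iff_dvd.2 (hQR.trans hRN))
    have h3 := (h2.add h1).trans (by rw [Nat.zero_add])
    exact h3.trans (hρ _)
  · refine lt_of_lt_of_le hwc ?_
    have h1 : (∑ d, if OneIn (al d) (be d) h N then w d else 0) =
        ∑ d, if OneIn (al (σ d)) (be (σ d)) h N then w (σ d) else 0 :=
      (Equiv.sum_comp σ (fun d => if OneIn (al d) (be d) h N then w d else 0)).symm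
    rw [h1]
    unfold wc
    refine Finset.sum_le_sum fun d _ => ?_
    by_cases hex : ∃! l : Fin s1, (N + (fun q : Fin m × Fin s1 => u (finProdFinEquiv q)) (d, l)).Prime
    · have hone : OneIn (al (σ d)) (be (σ d)) h N := by
        obtain ⟨l, hl, huniq⟩ := hex
        have hbl := hblk d l
        refine ⟨u (finProdFinEquiv (d, l)), ⟨hbl.1, hbl.2, hl⟩, ?_⟩
        rintro y ⟨hy1, hy2, hy3⟩
        have hyh : (y : ℝ) ≤ h := by
          have h2 : be (σ d) * h ≤ 1 * h := mul_le_mul_of_nonneg_right (hint (σ d)).2.2.le hh.le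
          linarith
        obtain ⟨i, hi⟩ := hpr y hyh hy3
        have hbi := hblk (finProdFinEquiv.symm i).1 (finProdFinEquiv.symm i).2
        rw [hval i, hi] at hbi
        have hdd : (finProdFinEquiv.symm i).1 = d := by
          by_contra hne
          have hne' : σ (finProdFinEquiv.symm i).1 ≠ σ d := fun h3 => hne (σ.injective h3)
          rcases hdisj _ _ hne' with h3 | h3
          · have h4 := mul_lt_mul_of_pos_right h3 hh
            linarith [hbi.2]
          · have h4 := mul_lt_mul_of_pos_right h3 hh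
            linarith [hbi.1]
        have hi2 : finProdFinEquiv (d, (finProdFinEquiv.symm i).2) = i := by
          rw [← hdd]
          exact hval i
        have h5 : (finProdFinEquiv.symm i).2 = l := by
          refine huniq _ ?_
          show (N + u (finProdFinEquiv (d, (finProdFinEquiv.symm i).2))).Prime
          rw [hi2, hi]
          exact hy3
        rw [← hi, ← hi2, h5]
      rw [if_pos hex, if_pos hone]
    · rw [if_neg hex]
      split_ifs
      · exact hw _
      · exact le_rfl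

theorem thmC : ThmC := by
  classical
  intro m w hw hsum Q hQ
  have hm : 1 ≤ m := by
    rcases Nat.eq_zero_or_pos m with h | h
    · subst h
      rw [Finset.univ_eq_empty, Finset.sum_empty] at hsum
      linarith
    · exact h
  obtain ⟨s1, wd, hs1, hG⟩ := good_countC m hm
  have hR : 0 < WR Q (primorial wd) := wr_pos hQ _
  have hRw : primorial wd ∣ WR Q (primorial wd) := primorial_dvd Q wd
  have hQR : Q ∣ WR Q (primorial wd) := Dvd.intro _ rfl
  have hcl : ∀ r : ℕ, Nat.Coprime r Q → ∃ r' : ℕ, r' ≡ r [MOD Q] ∧ Nat.Coprime r' (WR Q (primorial wd)) :=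
    fun r hr => exists_cl Q (primorial wd) r hr
  generalize WR Q (primorial wd) = R at hR hRw hQR hcl
  have hσ : ∀ σ : Equiv.Perm (Fin m), ∃ lam0 : ℝ, 0 < lam0 ∧ lam0 ≤ 1 ∧
        ∀ al be : Fin m → ℝ, (∀ d, 0 < al d ∧ al d < be d ∧ be d < 1) →
          (∀ d d', d < d' → be d < al d') → ∀ lam : ℝ, 0 < lam → lam ≤ lam0 →
            ∃ δ T : ℝ, 0 < δ ∧ 1 ≤ T ∧ ∀ᶠ x : ℝ in atTop, ∀ ρ : Fin m → ℕ, (∀ d, Nat.Coprime (ρ d) R) →
              δ * x ≤ (((Tx x).filter (fun N : ℕ => (N : ℝ) ≤ T * x ∧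
                GdC m s1 R ρ (fun d => w (σ d)) al be (lam * Real.log x) N)).card : ℝ) := by
    intro σ
    have h1 : 100 ≤ ∑ d, (fun d => w (σ d)) d := by
      rw [Equiv.sum_comp σ w]
      exact hsum
    have h2 := hG (fun d => w (σ d)) (fun d => hw _) h1 R hR hRw
    obtain ⟨lam0, h3, h4, h5⟩ := h2
    refine ⟨lam0, h3, h4, ?_⟩
    intro al be hint hord lam hlam hle
    obtain ⟨δ, T, h6, h7, h8⟩ := h5 al be hint hord lam hlam hle
    refine ⟨δ, T, h6, h7, ?_⟩
    filter_upwards [h8] with x hx ρ hρ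
    refine (hx ρ hρ).trans (le_of_eq ?_)
    refine congrArg Nat.cast (congrArg Finset.card ?_)
    ext N
    simp only [Finset.mem_filter]
  choose lam0 hl0 hl1 hmain using hσ
  refine ⟨Finset.univ.inf' ⟨1, Finset.mem_univ _⟩ lam0, ?_, ?_, ?_⟩
  · rw [Finset.lt_inf'_iff]
    exact fun σ _ => hl0 σ
  · exact (Finset.inf'_le lam0 (Finset.mem_univ (1 : Equiv.Perm (Fin m)))).trans (hl1 1)
  intro r hr al be hint hdisj lam hlam hle
  choose ρ hρ1 hρ2 using fun d => hcl (r d) (hr d)
  have hmono : Monotone (al ∘ Tuple.sort al) := Tuple.monotone_sort al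
  generalize Tuple.sort al = σ at hmono
  have hord : ∀ d d' : Fin m, d < d' → be (σ d) < al (σ d') := by
    intro d d' hdd
    have hne : σ d ≠ σ d' := fun h1 => hdd.ne (σ.injective h1)
    rcases hdisj _ _ hne with h1 | h1
    · exact h1
    · exfalso
      have h2 : al (σ d) ≤ al (σ d') := hmono hdd.le
      have h3 := (hint (σ d')).2.1
      linarith
  obtain ⟨δ, T, hδ, hT, hev⟩ := hmain σ (fun d => al (σ d)) (fun d => be (σ d)) (fun d => hint (σ d)) hord lam hlam
    (hle.trans (Finset.inf'_le lam0 (Finset.mem_univ σ)))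
  refine ⟨δ, T, hδ, hT, ?_⟩
  filter_upwards [hev, eventually_gt_atTop (1 : ℝ)] with x hx hx1
  refine (hx (fun d => ρ (σ d)) (fun d => hρ2 _)).trans ?_
  have hh : 0 < lam * Real.log x := mul_pos hlam (Real.log_pos hx1)
  refine Nat.cast_le.2 (Finset.card_le_card ?_)
  intro N hN
  rw [Finset.mem_filter] at hN ⊢
  refine ⟨Finset.mem_range.2 (Nat.lt_succ_of_le (Nat.le_floor hN.2.1)), ?_⟩
  exact good_of_gd hQR hw σ (fun d => hρ1 (σ d)) hint hdisj hh hN.2.2

end Pool.Agent.H34.RC
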